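import Mathlib
import Pool.Agent.H.MP_83c24b_al.A

set_option autoImplicit false

namespace Pool.Agent.Results.MP_83c24b_al.Counter

open MvPolynomial

/-- `c` presents `G` as the group of points of an affine algebraic group over `K` -/
def IsAff {K G : Type} [Field K] [Group G] {n : ℕ} (c : G → Fin n → K) : Prop :=
  Function.Injective c ∧
  (∃ S : Set (MvPolynomial (Fin n) K), Set.range c = {x | ∀ P ∈ S, eval x P = 0}) ∧
  (∀ i, ∃ P : MvPolynomial (Fin n ⊕ Fin n) K,
    ∀ a b : G, c (a * b) i = eval (Sum.elim (c a) (c b)) P) ∧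
  ∀ i, ∃ P : MvPolynomial (Fin n) K, ∀ a : G, c a⁻¹ i = eval (c a) P

/-- not a direct product of two nontrivial groups -/
def Indec (G : Type) [Group G] : Prop :=
  ∀ (A B : Type) [Group A] [Group B], Nonempty (G ≃* A × B) → Subsingleton A ∨ Subsingleton B

/-- a field automorphism on coordinates followed by a polynomial map -/
def Semi {K G H : Type} [Field K] [Group G] [Group H] {m n : ℕ} (c : G → Fin m → K)
    (d : H → Fin n → K) (φ : G ≃* H) : Prop :=
  ∃ σ : K ≃+* K, ∀ i, ∃ P : MvPolynomial (Fin m) K, ∀ g, d (φ g) i = eval (fun j => σ (c g j)) P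

theorem result : ∃ (G H : Type) (_ : Group G) (_ : Group H) (m n : ℕ) (c : G → Fin m → ℂ)
    (d : H → Fin n → ℂ), IsAff c ∧ IsAff d ∧ Indec G ∧ Indec H ∧
    Subgroup.center G = ⊥ ∧ Subgroup.center H = ⊥ ∧ Nonempty (G ≃* H) ∧
    ∀ φ : G ≃* H, ¬ Semi c d φ := by
  open H.MP_83c24b_al in
  exact ⟨D (Fin 1 → ℂ), D (Fin 2 → ℂ), inferInstance, inferInstance, 2, 3, co, co, aff 1, aff 2,
    fun A B _ _ ⟨e⟩ => indec A B e, fun A B _ _ ⟨e⟩ => indec A B e, center, center,
    iso.map D.map, fun φ ⟨σ, h⟩ => nosemi φ σ h⟩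

end Pool.Agent.Results.MP_83c24b_al.Counter
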